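import Pool.Agent.Work.MP_252c1e_lc.Final

/-!
# MP_252c1e_lc, Q2 (full answer)

For positive integers `n`, `m`: homeomorphism of open subsets of `Sⁿ` is Borel reducible to
homeomorphism of open subsets of `Sᵐ` if and only if `n = 1` or `2 ≤ m`.

`Sⁿ` is the one-point compactification of `ℝⁿ`; an open subset is coded by its complement, a point
of the hyperspace `NonemptyCompacts (Sⁿ)` (Vietoris = Hausdorff metric topology); the reduction is
measurable for the Borel `σ`-algebras of the two hyperspaces.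
-/

open Set Topology TopologicalSpace

namespace Pool.Agent.Results.MP_252c1e_lc.OpenSubsetsSpheres

theorem result (n m : ℕ) (hn : 1 ≤ n) (hm : 1 ≤ m) :
    (∃ f : NonemptyCompacts (OnePoint (EuclideanSpace ℝ (Fin n))) →
        NonemptyCompacts (OnePoint (EuclideanSpace ℝ (Fin m))),
      @Measurable _ _ (borel _) (borel _) f ∧
      ∀ K L : NonemptyCompacts (OnePoint (EuclideanSpace ℝ (Fin n))),
        Nonempty (((K : Set (OnePoint (EuclideanSpace ℝ (Fin n))))ᶜ : Set _) ≃ₜ
          ((L : Set (OnePoint (EuclideanSpace ℝ (Fin n))))ᶜ : Set _)) ↔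
        Nonempty (((f K : Set (OnePoint (EuclideanSpace ℝ (Fin m))))ᶜ : Set _) ≃ₜ
          ((f L : Set (OnePoint (EuclideanSpace ℝ (Fin m))))ᶜ : Set _))) ↔
    n = 1 ∨ 2 ≤ m :=
  Pool.Agent.Work.MP_252c1e_lc.mainThm n m hn hm

end Pool.Agent.Results.MP_252c1e_lc.OpenSubsetsSpheres
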